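import Pool.Agent.Helper43.Mesh4
import Pool.Agent.Helper43.Mesh6

set_option autoImplicit false

namespace Pool.Agent.Results.MP_72afba_an.NotSidon

open MeasureTheory intervalIntegral Pool.Agent.Helper43.Mesh

/-- The trigonometric polynomial `∑_{n ∈ A} a_n e^{int}`. -/
noncomputable def poly (A : Finset ℤ) (a : ℤ → ℂ) (t : ℝ) : ℂ :=
  ∑ n ∈ A, a n * Complex.exp (Complex.I * (n : ℂ) * (t : ℂ))

/-- The mean over the circle `ℝ / 2πℤ` with normalised Lebesgue measure. -/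
noncomputable def mean (g : ℝ → ℝ) : ℝ := (2 * Real.pi)⁻¹ * ∫ t in (0 : ℝ)..(2 * Real.pi), g t

/-- The Orlicz norm `inf {c > 0 : ∫ exp (|g|² / c²) dm ≤ 2}`. -/
noncomputable def psiTwo (g : ℝ → ℂ) : ℝ :=
  sInf {c : ℝ | 0 < c ∧ mean (fun t => Real.exp (‖g t‖ ^ 2 / c ^ 2)) ≤ 2}

/-- `Λ` is subgaussian: `‖f‖_{ψ₂} ≤ C ‖f‖_{L²}` for every `Λ`-polynomial `f`. -/
def Subgaussian (Λ : Set ℤ) : Prop :=
  ∃ C : ℝ, ∀ A : Finset ℤ, (A : Set ℤ) ⊆ Λ → ∀ a : ℤ → ℂ,
    psiTwo (poly A a) ≤ C * Real.sqrt (mean (fun t => ‖poly A a t‖ ^ 2))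

/-- `Λ` is Sidon: `∑ |a_n| ≤ C sup |f|` for every `Λ`-polynomial `f`. -/
def Sidon (Λ : Set ℤ) : Prop :=
  ∃ C : ℝ, ∀ A : Finset ℤ, (A : Set ℤ) ⊆ Λ → ∀ a : ℤ → ℂ,
    ∑ n ∈ A, ‖a n‖ ≤ C * ⨆ t : ℝ, ‖poly A a t‖

/-- The condition de maille with the constant `K`. -/
def Mesh (Λ : Set ℤ) (K : ℕ) : Prop :=
  ∀ n s : ℕ, 1 ≤ n → 1 ≤ s → ∀ k : Fin n → ℤ,
    (Λ ∩ {z : ℤ | ∃ m : Fin n → ℤ, ∑ i, |m i| ≤ 2 ^ s ∧ z = ∑ i, k i * m i}).encard ≤ (K * n * s : ℕ)

lemma mean_eq (g : ℝ → ℝ) : mean g = ∫ x in (0 : ℝ)..1, g (2 * Real.pi * x) := by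
  rw [mean, intervalIntegral.integral_comp_mul_left g (by positivity : (2 * Real.pi) ≠ 0)]
  simp

lemma poly_eq (A : Finset ℤ) (a : ℤ → ℂ) (x : ℝ) :
    poly A a (2 * Real.pi * x) = ∑ n ∈ A, a n * ee n x := by
  unfold poly ee
  apply Finset.sum_congr rfl
  intro n _
  congr 2
  push_cast
  ring

lemma norm_poly_le (A : Finset ℤ) (a : ℤ → ℂ) (t : ℝ) : ‖poly A a t‖ ≤ ∑ n ∈ A, ‖a n‖ := by
  unfold poly
  refine (norm_sum_le _ _).trans (Finset.sum_le_sum (fun n _ => ?_))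
  rw [norm_mul, show Complex.I * (n : ℂ) * (t : ℂ) = ((n * t : ℝ) : ℂ) * Complex.I by push_cast; ring,
    Complex.norm_exp_ofReal_mul_I, mul_one]

lemma poly_continuous (A : Finset ℤ) (a : ℤ → ℂ) : Continuous (poly A a) := by
  unfold poly
  fun_prop

lemma psi_nonempty (A : Finset ℤ) (a : ℤ → ℂ) :
    {c : ℝ | 0 < c ∧ mean (fun t => Real.exp (‖poly A a t‖ ^ 2 / c ^ 2)) ≤ 2}.Nonempty := by
  set M : ℝ := ∑ n ∈ A, ‖a n‖ with hM
  have hM0 : 0 ≤ M := Finset.sum_nonneg (fun _ _ => norm_nonneg _)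
  have hlog : 0 < Real.log 2 := Real.log_pos (by norm_num)
  have hs : 0 < Real.sqrt (Real.log 2) := Real.sqrt_pos.mpr hlog
  refine ⟨(M + 1) / Real.sqrt (Real.log 2), by positivity, ?_⟩
  rw [mean_eq]
  calc ∫ x in (0 : ℝ)..1, Real.exp (‖poly A a (2 * Real.pi * x)‖ ^ 2 / ((M + 1) / Real.sqrt (Real.log 2)) ^ 2)
      ≤ ∫ x in (0 : ℝ)..1, (2 : ℝ) := by
        apply intervalIntegral.integral_mono_on zero_le_one
        · apply Continuous.intervalIntegrable
          apply Real.continuous_exp.comp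
          apply Continuous.div_const
          exact ((poly_continuous A a).comp (continuous_const.mul continuous_id)).norm.pow 2
        · exact _root_.intervalIntegrable_const
        · intro x _
          have h1 : ‖poly A a (2 * Real.pi * x)‖ ≤ M + 1 := (norm_poly_le A a _).trans (by linarith)
          have h2 : ‖poly A a (2 * Real.pi * x)‖ ^ 2 / ((M + 1) / Real.sqrt (Real.log 2)) ^ 2 ≤ Real.log 2 := by
            rw [div_pow, Real.sq_sqrt hlog.le, div_div_eq_mul_div, div_le_iff₀ (by positivity), mul_comm]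
            gcongr
          calc Real.exp _ ≤ Real.exp (Real.log 2) := Real.exp_le_exp.mpr h2
            _ = 2 := Real.exp_log (by norm_num)
    _ = 2 := by simp

/-- the lower bound for the Orlicz norm -/
lemma psi_lower (A : Finset ℤ) (N : ℕ) (hN : 0 < N) (S : Finset ℤ) (hScard : S.card ≤ 16 ^ N)
    (hS : ∀ g : Fin N → ℤ, (∀ i, g i ∈ A) → ∑ i, g i ∈ S) :
    (A.card : ℝ) / (4 * Real.sqrt (2 * N)) ≤ psiTwo (poly A (fun _ => 1)) := by
  have hN' : (0 : ℝ) < N := by exact_mod_cast hN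
  apply le_csInf (psi_nonempty A _)
  rintro c ⟨hc, hmean⟩
  have h0 := lower_bound A N hN S hScard hS
  simp only [Real.rpow_natCast] at h0
  set X := ∫ x in (0 : ℝ)..1, ‖∑ j ∈ A, ee j x‖ ^ (2 * N) with hX
  have hX0 : 0 ≤ X := intervalIntegral.integral_nonneg zero_le_one (fun y _ => by positivity)
  have h1 : ((A.card : ℝ) / 4) ^ (2 * N) ≤ X := by
    calc ((A.card : ℝ) / 4) ^ (2 * N) ≤ (X ^ (1 / ((2 * N : ℕ) : ℝ))) ^ (2 * N) := by gcongr
      _ = X := by
        rw [one_div, Real.rpow_inv_natCast_pow hX0 (by omega)]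
  have hp : ∀ x : ℝ, poly A (fun _ => 1) (2 * Real.pi * x) = ∑ j ∈ A, ee j x := by
    intro x
    rw [poly_eq]
    simp
  have hee : Continuous (fun x => ∑ j ∈ A, ee j x) := continuous_finsetSum _ (fun j _ => ee_continuous j)
  rw [mean_eq] at hmean
  simp only [hp] at hmean
  have h2 : X ≤ 2 * (N.factorial * c ^ (2 * N)) := by
    calc X ≤ ∫ x in (0 : ℝ)..1, (N.factorial * c ^ (2 * N)) * Real.exp (‖∑ j ∈ A, ee j x‖ ^ 2 / c ^ 2) := by
          apply intervalIntegral.integral_mono_on zero_le_one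
          · exact (hee.norm.pow _).intervalIntegrable _ _
          · apply Continuous.intervalIntegrable
            apply Continuous.mul continuous_const
            apply Real.continuous_exp.comp
            exact (hee.norm.pow 2).div_const _
          · intro x _
            have := Real.pow_div_factorial_le_exp (‖∑ j ∈ A, ee j x‖ ^ 2 / c ^ 2) (by positivity) N
            have hf : (0 : ℝ) < (N.factorial : ℕ) := by exact_mod_cast Nat.factorial_pos N
            have h3 : ‖∑ j ∈ A, ee j x‖ ^ (2 * N) =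
                (N.factorial * c ^ (2 * N)) * ((‖∑ j ∈ A, ee j x‖ ^ 2 / c ^ 2) ^ N / N.factorial) := by
              rw [div_pow, ← pow_mul, ← pow_mul]
              field_simp
            rw [h3]
            gcongr
      _ = (N.factorial * c ^ (2 * N)) * ∫ x in (0 : ℝ)..1, Real.exp (‖∑ j ∈ A, ee j x‖ ^ 2 / c ^ 2) := by
          rw [intervalIntegral.integral_const_mul]
      _ ≤ (N.factorial * c ^ (2 * N)) * 2 := by gcongr
      _ = 2 * (N.factorial * c ^ (2 * N)) := by ring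
  have h3 : (2 : ℝ) * N.factorial ≤ (2 * N) ^ N := by
    have h4 : (N.factorial : ℝ) ≤ (N : ℝ) ^ N := by exact_mod_cast Nat.factorial_le_pow N
    have h5 : (2 : ℝ) ≤ 2 ^ N := by
      calc (2 : ℝ) = 2 ^ 1 := (pow_one _).symm
        _ ≤ 2 ^ N := pow_le_pow_right₀ (by norm_num) hN
    rw [mul_pow]
    gcongr
  have h4 : ((A.card : ℝ) / 4) ^ (2 * N) ≤ (Real.sqrt (2 * N) * c) ^ (2 * N) := by
    calc ((A.card : ℝ) / 4) ^ (2 * N) ≤ X := h1
      _ ≤ 2 * (N.factorial * c ^ (2 * N)) := h2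
      _ = (2 * N.factorial) * c ^ (2 * N) := by ring
      _ ≤ (2 * N) ^ N * c ^ (2 * N) := by gcongr
      _ = (Real.sqrt (2 * N) * c) ^ (2 * N) := by
        rw [mul_pow (Real.sqrt _) c, pow_mul (Real.sqrt _), Real.sq_sqrt (by positivity)]
  have h5 : (A.card : ℝ) / 4 ≤ Real.sqrt (2 * N) * c := le_of_pow_le_pow_left₀ (by omega) (by positivity) h4
  rw [div_le_iff₀ (by positivity)]
  linarith

/-- the `L²` norm of the sum of the characters -/
lemma mean_sq (A : Finset ℤ) : mean (fun t => ‖poly A (fun _ => 1) t‖ ^ 2) = A.card := by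
  rw [mean_eq]
  have h := parseval A (fun _ => 1)
  simp only [Complex.ofReal_one, one_mul, one_pow, Finset.sum_const, nsmul_eq_mul, mul_one] at h
  rw [← h]
  apply intervalIntegral.integral_congr
  intro x _
  simp only [poly_eq, one_mul]

/-- The quantitative statement for one set. -/
lemma block (A : Finset ℤ) (N j : ℕ) (hN : 0 < N) (hA : A.card = N * (j + 1)) (S : Finset ℤ)
    (hScard : S.card ≤ 16 ^ N) (hS : ∀ g : Fin N → ℤ, (∀ i, g i ∈ A) → ∑ i, g i ∈ S) :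
    Real.sqrt ((j + 1) / 32) * Real.sqrt (mean (fun t => ‖poly A (fun _ => 1) t‖ ^ 2)) ≤
        psiTwo (poly A (fun _ => 1)) ∧
      ∃ ε : ℤ → ℂ, (∀ n, ε n = 1 ∨ ε n = -1) ∧
        Real.sqrt (j + 1) / 27 * ⨆ t : ℝ, ‖poly A ε t‖ ≤ ∑ n ∈ A, ‖ε n‖ := by
  have hN' : (0 : ℝ) < N := by exact_mod_cast hN
  have hcard : (A.card : ℝ) = N * (j + 1) := by rw [hA]; push_cast; ring
  have hj : (0 : ℝ) < (j : ℝ) + 1 := by positivity
  constructor
  · rw [mean_sq]
    refine le_trans (le_of_eq ?_) (psi_lower A N hN S hScard hS)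
    rw [hcard, eq_div_iff (by positivity)]
    have e1 : Real.sqrt ((j + 1) / 32) * Real.sqrt (N * (j + 1)) * (4 * Real.sqrt (2 * N)) =
        4 * Real.sqrt ((((j + 1) / 32) * (N * (j + 1))) * (2 * N)) := by
      rw [show Real.sqrt ((j + 1) / 32) * Real.sqrt (N * (j + 1)) * (4 * Real.sqrt (2 * N)) =
        4 * (Real.sqrt ((j + 1) / 32) * Real.sqrt (N * (j + 1)) * Real.sqrt (2 * N)) by ring,
        ← Real.sqrt_mul (by positivity), ← Real.sqrt_mul (by positivity)]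
    rw [e1, show (((j : ℝ) + 1) / 32) * (N * (j + 1)) * (2 * N) = (N * (j + 1) / 4) ^ 2 by ring,
      Real.sqrt_sq (by positivity)]
    ring
  · have hAne : A.Nonempty := by
      rw [← Finset.card_pos, hA]
      positivity
    obtain ⟨B, hB⟩ := exists_small_sup A hAne N hN S hScard hS
    refine ⟨fun n => (sg B n : ℂ), fun n => ?_, ?_⟩
    · by_cases h : n ∈ B
      · left; simp [sg, h]
      · right; simp [sg, h]
    · have hsum : ∑ n ∈ A, ‖(sg B n : ℂ)‖ = A.card := by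
        simp [Complex.norm_real, sg_abs]
      rw [hsum]
      have hsup : ⨆ t : ℝ, ‖poly A (fun n => (sg B n : ℂ)) t‖ ≤ 27 * Real.sqrt (N * A.card) := by
        apply ciSup_le
        intro t
        have h := hB (t / (2 * Real.pi))
        have h1 : poly A (fun n => (sg B n : ℂ)) t = gg A B (t / (2 * Real.pi)) := by
          have : t = 2 * Real.pi * (t / (2 * Real.pi)) := by
            field_simp
          conv_lhs => rw [this]
          rw [poly_eq, gg]
        rw [h1]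
        exact h
      calc Real.sqrt (j + 1) / 27 * ⨆ t : ℝ, ‖poly A (fun n => (sg B n : ℂ)) t‖
          ≤ Real.sqrt (j + 1) / 27 * (27 * Real.sqrt (N * A.card)) := by gcongr
        _ = Real.sqrt (j + 1) * Real.sqrt (N * A.card) := by ring
        _ = Real.sqrt ((j + 1) * (N * A.card)) := by
          rw [← Real.sqrt_mul (by positivity)]
        _ = A.card := by
          rw [hcard, show ((j : ℝ) + 1) * (N * (N * (j + 1))) = (N * (j + 1)) ^ 2 by ring,
            Real.sqrt_sq (by positivity)]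

/-- There is a set of integers that satisfies the condition de maille with the constant `4`, is neither Sidon nor subgaussian, and contains for every
`j` a finite set `A` with `|A| = N (j + 1)` whose `N`-fold sumset has at most `16 ^ N` elements; the sum of the characters in `A` has `ψ₂`-norm at least
`√((j + 1) / 32)` times its `L²`-norm, and with suitable signs the sup norm is at most `27 / √(j + 1)` times the sum of the moduli of the coefficients. -/
theorem result : ∃ Λ : Set ℤ, Mesh Λ 4 ∧ ¬ Sidon Λ ∧ ¬ Subgaussian Λ ∧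
    ∀ j : ℕ, ∃ N : ℕ, 0 < N ∧ ∃ A : Finset ℤ, (A : Set ℤ) ⊆ Λ ∧ A.card = N * (j + 1) ∧
      (∃ S : Finset ℤ, S.card ≤ 16 ^ N ∧ ∀ g : Fin N → ℤ, (∀ i, g i ∈ A) → ∑ i, g i ∈ S) ∧
      Real.sqrt ((j + 1) / 32) * Real.sqrt (mean (fun t => ‖poly A (fun _ => 1) t‖ ^ 2)) ≤
        psiTwo (poly A (fun _ => 1)) ∧
      ∃ ε : ℤ → ℂ, (∀ n, ε n = 1 ∨ ε n = -1) ∧
        Real.sqrt (j + 1) / 27 * ⨆ t : ℝ, ‖poly A ε t‖ ≤ ∑ n ∈ A, ‖ε n‖ := by
  obtain ⟨Λ, hmesh, hblocks⟩ := construction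
  have hq : ∀ j : ℕ, ∃ N : ℕ, 0 < N ∧ ∃ A : Finset ℤ, (A : Set ℤ) ⊆ Λ ∧ A.card = N * (j + 1) ∧
      (∃ S : Finset ℤ, S.card ≤ 16 ^ N ∧ ∀ g : Fin N → ℤ, (∀ i, g i ∈ A) → ∑ i, g i ∈ S) ∧
      Real.sqrt ((j + 1) / 32) * Real.sqrt (mean (fun t => ‖poly A (fun _ => 1) t‖ ^ 2)) ≤
        psiTwo (poly A (fun _ => 1)) ∧
      ∃ ε : ℤ → ℂ, (∀ n, ε n = 1 ∨ ε n = -1) ∧
        Real.sqrt (j + 1) / 27 * ⨆ t : ℝ, ‖poly A ε t‖ ≤ ∑ n ∈ A, ‖ε n‖ := by
    intro j
    obtain ⟨N, hN, A, hAΛ, hAcard, S, hScard, hS⟩ := hblocks j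
    exact ⟨N, hN, A, hAΛ, hAcard, ⟨S, hScard, hS⟩, block A N j hN hAcard S hScard hS⟩
  refine ⟨Λ, ?_, ?_, ?_, hq⟩
  · intro n s hn hs k
    by_contra hcon
    push Not at hcon
    obtain ⟨T, hT, hTcard⟩ := Set.exists_subset_encard_eq (Order.add_one_le_of_lt hcon)
    have hTfin : T.Finite := by
      rw [← Set.encard_lt_top_iff, hTcard]
      exact_mod_cast ENat.natCast_lt_top _
    have h1 := hmesh n s hn hs k hTfin.toFinset (by
      intro a ha
      rw [Finset.mem_coe, Set.Finite.mem_toFinset] at ha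
      exact (hT ha).1) (by
      intro a ha
      rw [Set.Finite.mem_toFinset] at ha
      exact (hT ha).2)
    have h2 : (hTfin.toFinset.card : ℕ∞) = ((4 * n * s : ℕ) : ℕ∞) + 1 := by
      rw [← hTcard, hTfin.encard_eq_coe_toFinset_card]
    have h3 : hTfin.toFinset.card = 4 * n * s + 1 := by exact_mod_cast h2
    omega
  · rintro ⟨C, hC⟩
    obtain ⟨j, hj⟩ := exists_nat_gt ((27 * |C|) ^ 2)
    obtain ⟨N, hN, A, hAΛ, hAcard, -, -, ε, hε, hsup⟩ := hq j
    have h1 := hC A hAΛ ε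
    set s := ⨆ t : ℝ, ‖poly A ε t‖ with hs
    have hs0 : 0 ≤ s := Real.iSup_nonneg (fun t => norm_nonneg _)
    have hsum : 0 < ∑ n ∈ A, ‖ε n‖ := by
      have hAne : A.Nonempty := by
        rw [← Finset.card_pos, hAcard]
        positivity
      apply Finset.sum_pos _ hAne
      intro n _
      rcases hε n with h | h <;> simp [h]
    have h2 : C * s ≤ |C| * s := mul_le_mul_of_nonneg_right (le_abs_self C) hs0
    have hspos : 0 < s := by
      rcases hs0.lt_or_eq with h | h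
      · exact h
      · rw [← h, mul_zero] at h1
        linarith
    have h3 : Real.sqrt (j + 1) / 27 ≤ |C| := le_of_mul_le_mul_right (hsup.trans (h1.trans h2)) hspos
    have h4 : Real.sqrt (j + 1) ≤ 27 * |C| := by linarith
    have h5 : ((j : ℝ) + 1) ≤ (27 * |C|) ^ 2 := by
      calc ((j : ℝ) + 1) = Real.sqrt (j + 1) ^ 2 := (Real.sq_sqrt (by positivity)).symm
        _ ≤ _ := by gcongr
    linarith
  · rintro ⟨C, hC⟩
    obtain ⟨j, hj⟩ := exists_nat_gt (32 * |C| ^ 2)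
    obtain ⟨N, hN, A, hAΛ, hAcard, -, hpsi, -⟩ := hq j
    have h1 := hC A hAΛ (fun _ => 1)
    have h0 := hpsi.trans h1
    have hs : 0 < Real.sqrt (mean (fun t => ‖poly A (fun _ => 1) t‖ ^ 2)) := by
      rw [mean_sq]
      apply Real.sqrt_pos.mpr
      have : 0 < A.card := by rw [hAcard]; positivity
      exact_mod_cast this
    have h3 : Real.sqrt ((j + 1) / 32) ≤ C := le_of_mul_le_mul_right h0 hs
    have h4 : ((j : ℝ) + 1) / 32 ≤ |C| ^ 2 := by
      calc ((j : ℝ) + 1) / 32 = Real.sqrt ((j + 1) / 32) ^ 2 := (Real.sq_sqrt (by positivity)).symm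
        _ ≤ |C| ^ 2 := by
          gcongr
          exact h3.trans (le_abs_self C)
    linarith

end Pool.Agent.Results.MP_72afba_an.NotSidon
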